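import Pool.Agent.H83.D3N.Targets

/-!
# Row OB of the board obk_modules: one ball (MP_ee74d2_an, dimension three)

The end state of the chain contains a configuration (CNF), the end lemma (MAI) gives a Lorentz
quadric which contains many packets up to the scale `1/K₁` (SHF), and the energy estimate near a
quadric (SPH) bounds their number; hence `K₁` is at most a power of the losses.
-/

set_option autoImplicit false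

namespace Pool.Agent.H75.D3N.OB

open MeasureTheory Set
open scoped ENNReal NNReal RealInnerProductSpace
open Pool.Agent.H83.G (Z E TF TP Lo ctr IsPU Sep T_LOB)
open Pool.Agent.H83.LS (BCd EE)
open Pool.Agent.H81.GT (tz SymE IsX Gf)
open Pool.Agent.H91.EL (qB qQ ll Sg gr Conf T_MAI)
open Pool.Agent.H92.EZ (sgm dsg T_EZ)
open Pool.Agent.H82.LB (CirZ)
open Pool.Agent.H83.D3N

/-! ### Elementary facts -/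

theorem fam_sub {β : E 2 → ℂ} {G : Z 2 → ℂ} {h ρ K₁ : ℝ} {P Q : Finset Tp}
    (hF : Fam β G h ρ K₁ P) (hQ : Q ⊆ P) : Fam β G h ρ K₁ Q :=
  ⟨fun p hp => hF.pk p (hQ hp), fun p hp => hF.eta p (hQ hp), fun p hp => hF.tag p (hQ hp),
    fun p hp p' hp' => hF.sepP p (hQ hp) p' (hQ hp')⟩

theorem abs_tz_le (z z₀ : Z 2) : |tz z₀| ≤ |tz z| + 2 * ‖z - z₀‖ := by
  have h1 : |z.1 - z₀.1| ≤ ‖z - z₀‖ := norm_fst_le (z - z₀)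
  have h2 : |z.2.2 - z₀.2.2| ≤ ‖z - z₀‖ :=
    (norm_snd_le (z - z₀).2).trans (norm_snd_le (z - z₀))
  have h3 : tz z₀ = tz z - (z.1 - z₀.1) - (z.2.2 - z₀.2.2) := by
    unfold tz
    ring
  rw [h3]
  have h4 := abs_sub (tz z - (z.1 - z₀.1)) (z.2.2 - z₀.2.2)
  have h5 := abs_sub (tz z) (z.1 - z₀.1)
  linarith

theorem norm_le_Lo (hLOB : T_LOB) (η : E 2) (ρ : ℝ) (z : Z 2) (hη : ‖η‖ ≤ 3) (hρ : 1 ≤ ρ) :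
    ‖z‖ ≤ 16 * ρ ^ 2 * ‖Lo η ρ⁻¹ z‖ := by
  have h0 : 0 < ρ := lt_of_lt_of_le one_pos hρ
  have h1 := (hLOB 2 3 (by norm_num)).2.1 η ρ⁻¹ z hη (inv_pos.2 h0) (inv_le_one_of_one_le₀ hρ)
  rw [inv_inv] at h1
  norm_num at h1
  exact h1

theorem Sg_shift (lam : ℝ) (n a z z₀ : Z 2) : Sg lam n (a + z₀) (z + z₀) = Sg lam n a z := by
  unfold Sg
  rw [add_sub_add_right_eq_sub]

theorem gr_shift (lam : ℝ) (n a z z₀ : Z 2) : gr lam n (a + z₀) (z + z₀) = gr lam n a z := by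
  unfold gr
  rw [add_sub_add_right_eq_sub]

/-! ### Numbers -/

theorem sq_AR {R A D ρ h : ℝ} (hA : 0 < A) (hR : 0 ≤ R) (hAR : A * R ≤ D * ρ ^ 2 * h) :
    A ^ 2 * R ^ 2 ≤ D ^ 2 * ρ ^ 4 * h ^ 2 := by
  have h1 : (A * R) ^ 2 ≤ (D * ρ ^ 2 * h) ^ 2 := pow_le_pow_left₀ (mul_nonneg hA.le hR) hAR 2
  calc A ^ 2 * R ^ 2 = (A * R) ^ 2 := by ring
    _ ≤ (D * ρ ^ 2 * h) ^ 2 := h1
    _ = D ^ 2 * ρ ^ 4 * h ^ 2 := by ring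

theorem card_bound {C R A D ρ h x N : ℝ} (hC : 0 ≤ C) (hx : 0 ≤ x) (hA : 0 < A)
    (hR : 0 ≤ R) (hh : 0 < h) (hAR : A * R ≤ D * ρ ^ 2 * h)
    (hN : N * h ^ 2 ≤ C * x * D ^ 4 * (A ^ 2 * R ^ 2)) : N ≤ C * x * D ^ 6 * ρ ^ 4 := by
  have h1 := sq_AR hA hR hAR
  have h2 : C * x * D ^ 4 * (A ^ 2 * R ^ 2) ≤ C * x * D ^ 4 * (D ^ 2 * ρ ^ 4 * h ^ 2) :=
    mul_le_mul_of_nonneg_left h1 (by positivity)
  have h3 : N * h ^ 2 ≤ (C * x * D ^ 6 * ρ ^ 4) * h ^ 2 := by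
    calc N * h ^ 2 ≤ C * x * D ^ 4 * (D ^ 2 * ρ ^ 4 * h ^ 2) := hN.trans h2
      _ = (C * x * D ^ 6 * ρ ^ 4) * h ^ 2 := by ring
  exact le_of_mul_le_mul_right h3 (by positivity)

theorem sqrt_bound {Cm Cs R A D D₁ ρ h x N S : ℝ} (hCm : 0 < Cm) (hCs : 0 ≤ Cs) (hx : 0 ≤ x)
    (hD₁ : 0 < D₁) (hρ : 0 < ρ) (hA : 0 < A) (hR : 0 ≤ R) (hh : 0 < h) (hS : 0 < S)
    (hAR : A * R ≤ D * ρ ^ 2 * h) (hN0 : ρ ^ 4 ≤ Cm * D₁ ^ 134 * N)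
    (hN : N * h ^ 2 ≤ Cs * x * D ^ 4 * (A ^ 2 * R ^ 2 / S)) :
    S ≤ Cm * Cs * D₁ ^ 134 * x * D ^ 6 := by
  have hNpos : 0 < N := by
    have h1 : 0 < Cm * D₁ ^ 134 * N := lt_of_lt_of_le (by positivity) hN0
    exact pos_of_mul_pos_right h1 (by positivity)
  have h1 : N * S * h ^ 2 ≤ Cs * x * D ^ 4 * (A ^ 2 * R ^ 2) := by
    have h2 := mul_le_mul_of_nonneg_right hN hS.le
    calc N * S * h ^ 2 = N * h ^ 2 * S := by ring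
      _ ≤ Cs * x * D ^ 4 * (A ^ 2 * R ^ 2 / S) * S := h2
      _ = Cs * x * D ^ 4 * (A ^ 2 * R ^ 2) := by
        field_simp
  have h2 := card_bound hCs hx hA hR hh hAR h1
  have h3 : N * S ≤ N * (Cm * Cs * D₁ ^ 134 * x * D ^ 6) := by
    calc N * S ≤ Cs * x * D ^ 6 * ρ ^ 4 := h2
      _ ≤ Cs * x * D ^ 6 * (Cm * D₁ ^ 134 * N) :=
        mul_le_mul_of_nonneg_left hN0 (by positivity)
      _ = N * (Cm * Cs * D₁ ^ 134 * x * D ^ 6) := by ring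
  exact le_of_mul_le_mul_left h3 hNpos

theorem S_bound {Cm Cf D D₁ ρ K S : ℝ} (hCm : 1 ≤ Cm) (hCf : 1 ≤ Cf) (hD : 1 ≤ D)
    (hDD : D ≤ D₁) (hK : 1 ≤ K) (hKρ : K ≤ ρ)
    (hS : S ≤ Cm * D₁ ^ 236 * ρ ^ 2 / K + D * ρ ^ 2 * (Cm * D₁ ^ 236 / K) +
      Cf * (Cm * D₁ ^ 20) * D ^ 2 * ρ) :
    S ≤ (2 * Cm + Cf * Cm) * D₁ ^ 237 * ρ ^ 2 / K := by
  have hD₁ : 1 ≤ D₁ := hD.trans hDD
  have hK0 : 0 < K := by linarith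
  have hρ0 : 0 < ρ := by linarith
  have e1 : D₁ ^ 236 ≤ D₁ ^ 237 := pow_le_pow_right₀ hD₁ (by norm_num)
  have e2 : D * D₁ ^ 236 ≤ D₁ ^ 237 := by
    calc D * D₁ ^ 236 ≤ D₁ * D₁ ^ 236 := mul_le_mul_of_nonneg_right hDD (by positivity)
      _ = D₁ ^ 237 := by rw [← pow_succ']
  have e3 : D₁ ^ 20 * D ^ 2 ≤ D₁ ^ 237 := by
    calc D₁ ^ 20 * D ^ 2 ≤ D₁ ^ 20 * D₁ ^ 2 :=
          mul_le_mul_of_nonneg_left (pow_le_pow_left₀ (by linarith) hDD 2) (by positivity)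
      _ = D₁ ^ 22 := by rw [← pow_add]
      _ ≤ D₁ ^ 237 := pow_le_pow_right₀ hD₁ (by norm_num)
  have e4 : ρ ≤ ρ ^ 2 / K := by
    rw [le_div_iff₀ hK0]
    nlinarith
  have t1 : Cm * D₁ ^ 236 * ρ ^ 2 / K ≤ Cm * D₁ ^ 237 * (ρ ^ 2 / K) := by
    calc Cm * D₁ ^ 236 * ρ ^ 2 / K = Cm * D₁ ^ 236 * (ρ ^ 2 / K) := by ring
      _ ≤ Cm * D₁ ^ 237 * (ρ ^ 2 / K) := by gcongr
  have t2 : D * ρ ^ 2 * (Cm * D₁ ^ 236 / K) ≤ Cm * D₁ ^ 237 * (ρ ^ 2 / K) := by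
    calc D * ρ ^ 2 * (Cm * D₁ ^ 236 / K) = Cm * (D * D₁ ^ 236) * (ρ ^ 2 / K) := by ring
      _ ≤ Cm * D₁ ^ 237 * (ρ ^ 2 / K) := by gcongr
  have t3 : Cf * (Cm * D₁ ^ 20) * D ^ 2 * ρ ≤ Cf * Cm * D₁ ^ 237 * (ρ ^ 2 / K) := by
    calc Cf * (Cm * D₁ ^ 20) * D ^ 2 * ρ = Cf * Cm * (D₁ ^ 20 * D ^ 2) * ρ := by ring
      _ ≤ Cf * Cm * D₁ ^ 237 * (ρ ^ 2 / K) := by gcongr
  calc S ≤ _ := hS
    _ ≤ Cm * D₁ ^ 237 * (ρ ^ 2 / K) + Cm * D₁ ^ 237 * (ρ ^ 2 / K) +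
        Cf * Cm * D₁ ^ 237 * (ρ ^ 2 / K) := by linarith
    _ = (2 * Cm + Cf * Cm) * D₁ ^ 237 * ρ ^ 2 / K := by ring

theorem Q_bound {Cm Cf D D₁ ρ K S : ℝ} (hCm : 1 ≤ Cm) (hCf : 1 ≤ Cf) (hD : 1 ≤ D)
    (hDD : D ≤ D₁) (hK : 1 ≤ K) (hKρ : K ≤ ρ)
    (hS : S ≤ Cm * D₁ ^ 236 / K + Cf * (Cm * D₁ ^ 20) * D / ρ ^ 2) :
    S ≤ (2 * Cm + Cf * Cm) * D₁ ^ 237 * 1 / K := by
  have hD₁ : 1 ≤ D₁ := hD.trans hDD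
  have hK0 : 0 < K := by linarith
  have hρ0 : 0 < ρ := by linarith
  have e1 : D₁ ^ 236 ≤ D₁ ^ 237 := pow_le_pow_right₀ hD₁ (by norm_num)
  have e3 : D₁ ^ 20 * D ≤ D₁ ^ 237 := by
    calc D₁ ^ 20 * D ≤ D₁ ^ 20 * D₁ := mul_le_mul_of_nonneg_left hDD (by positivity)
      _ = D₁ ^ 21 := by rw [← pow_succ]
      _ ≤ D₁ ^ 237 := pow_le_pow_right₀ hD₁ (by norm_num)
  have e4 : 1 / ρ ^ 2 ≤ 1 / K := by
    apply one_div_le_one_div_of_le hK0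
    nlinarith
  have t1 : Cm * D₁ ^ 236 / K ≤ Cm * D₁ ^ 237 * (1 / K) := by
    calc Cm * D₁ ^ 236 / K = Cm * D₁ ^ 236 * (1 / K) := by ring
      _ ≤ Cm * D₁ ^ 237 * (1 / K) := by gcongr
  have t3 : Cf * (Cm * D₁ ^ 20) * D / ρ ^ 2 ≤ Cf * Cm * D₁ ^ 237 * (1 / K) := by
    calc Cf * (Cm * D₁ ^ 20) * D / ρ ^ 2 = Cf * Cm * (D₁ ^ 20 * D) * (1 / ρ ^ 2) := by ring
      _ ≤ Cf * Cm * D₁ ^ 237 * (1 / K) := by gcongr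
  have t4 : 0 ≤ Cm * D₁ ^ 237 * (1 / K) := by positivity
  calc S ≤ _ := hS
    _ ≤ Cm * D₁ ^ 237 * (1 / K) + Cm * D₁ ^ 237 * (1 / K) +
        Cf * Cm * D₁ ^ 237 * (1 / K) := by linarith
    _ = (2 * Cm + Cf * Cm) * D₁ ^ 237 * 1 / K := by ring

theorem T_bound {C D D₁ K T S : ℝ} (hC : 0 < C) (hD : 1 ≤ D) (hDD : D ≤ D₁) (hK : 0 < K)
    (hT : 0 ≤ T) (hS : S ≤ C * D₁ ^ 237 * T / K) :
    200 * D * (K / (200 * C * D₁ ^ 240)) * S ≤ T := by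
  have hD₁ : 1 ≤ D₁ := hD.trans hDD
  have hD0 : 0 < D₁ := by linarith
  have h1 : 200 * D * (K / (200 * C * D₁ ^ 240)) * S ≤
      200 * D * (K / (200 * C * D₁ ^ 240)) * (C * D₁ ^ 237 * T / K) :=
    mul_le_mul_of_nonneg_left hS (by positivity)
  have h2 : 200 * D * (K / (200 * C * D₁ ^ 240)) * (C * D₁ ^ 237 * T / K) =
      D / D₁ ^ 3 * T := by
    have h3 : D₁ ^ 240 = D₁ ^ 237 * D₁ ^ 3 := by rw [← pow_add]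
    rw [h3]
    field_simp
  have h3 : D / D₁ ^ 3 ≤ 1 := by
    rw [div_le_one (by positivity)]
    calc D ≤ D₁ := hDD
      _ = D₁ ^ 1 := (pow_one _).symm
      _ ≤ D₁ ^ 3 := pow_le_pow_right₀ hD₁ (by norm_num)
  rw [h2] at h1
  calc _ ≤ D / D₁ ^ 3 * T := h1
    _ ≤ 1 * T := mul_le_mul_of_nonneg_right h3 hT
    _ = T := one_mul T

/-! ### The packets near the quadric -/

/-- the number of packets near the quadric bounds `K` -/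
theorem near_quadric {ρ D D₁ K Cm Cf lam : ℝ} {n a z₀ : Z 2} {X X' : Finset (Z 2)}
    {P P' Ps : Finset Tp} {I I' : Z 2 → Tp → Prop}
    (hLOB : T_LOB) (hρ : 1 ≤ ρ) (hD : 1 ≤ D) (hDD : D ≤ D₁) (hK : 1 ≤ K) (hKρ : K ≤ ρ)
    (hCm : 1 ≤ Cm) (hCf : 1 ≤ Cf)
    (hSHF : ∀ (ρ D Λ lam e₁ e₂ : ℝ) (n a z u : Z 2) (η : E 2),
      1 ≤ ρ → 1 ≤ D → 1 ≤ Λ → ‖n‖ = 1 → ‖η‖ ≤ 3 → |lam| * ρ ^ 2 ≤ Λ → ‖z - a‖ ≤ 2 * ρ ^ 2 →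
      ‖Lo η ρ⁻¹ (z - u)‖ ≤ D → |Sg lam n a z| ≤ e₁ → |qB (gr lam n a z) (ll η)| ≤ e₂ →
      |Sg lam n a u| ≤ e₁ + D * ρ ^ 2 * e₂ + Cf * Λ * D ^ 2 * ρ ∧
      |qB (gr lam n a u) (ll η)| ≤ e₂ + Cf * Λ * D / ρ ^ 2)
    (heta : ∀ p ∈ P, ‖ea ρ p‖ ≤ 3)
    (hrel : ∀ z ∈ X, ∀ p ∈ P, I z p → ‖Lo (ea ρ p) ρ⁻¹ (z - p.2.2)‖ ≤ D)
    (hball : ∀ z ∈ X', ‖z‖ ≤ ρ ^ 2) (hP' : P' ⊆ P) (hPs : Ps ⊆ P')
    (hX' : ∀ z ∈ X', z + z₀ ∈ X ∧ ∀ p ∈ P', I' z p → I (z + z₀) p)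
    (hex : ∀ p ∈ P', ∃ z ∈ X', I' z p) (ha : a ∈ X') (hn : ‖n‖ = 1)
    (hlam : |lam| * ρ ^ 2 ≤ Cm * D₁ ^ 20)
    (hq : ∀ p ∈ Ps, ∀ z ∈ X', I' z p → |Sg lam n a z| ≤ Cm * D₁ ^ 236 * ρ ^ 2 / K ∧
      |qB (gr lam n a z) (ll (ea ρ p))| ≤ Cm * D₁ ^ 236 / K) :
    ∀ p ∈ Ps, ‖p.2.2 - z₀‖ ≤ 100 * D * ρ ^ 2 ∧
      200 * D * (K / (200 * (2 * Cm + Cf * Cm) * D₁ ^ 240)) *
        |Sg lam n (a + z₀) p.2.2| ≤ ρ ^ 2 ∧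
      200 * D * (K / (200 * (2 * Cm + Cf * Cm) * D₁ ^ 240)) *
        |qB (gr lam n (a + z₀) p.2.2) (ll (ea ρ p))| ≤ 1 := by
  intro p hp
  have hD₁ : 1 ≤ D₁ := hD.trans hDD
  obtain ⟨z, hz, hIz⟩ := hex p (hPs hp)
  obtain ⟨hzX, hzI⟩ := hX' z hz
  have hI := hzI p (hPs hp) hIz
  have hL := hrel (z + z₀) hzX p (hP' (hPs hp)) hI
  have he := heta p (hP' (hPs hp))
  have hρ0 : 0 < ρ := by linarith
  have hρ2 : 0 < ρ ^ 2 := by positivity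
  have hz1 := hball z hz
  have ha1 := hball a ha
  obtain ⟨q1, q2⟩ := hq p hp z hz hIz
  have hd : ‖z + z₀ - (a + z₀)‖ ≤ 2 * ρ ^ 2 := by
    rw [add_sub_add_right_eq_sub]
    calc ‖z - a‖ ≤ ‖z‖ + ‖a‖ := norm_sub_le z a
      _ ≤ 2 * ρ ^ 2 := by linarith
  have hΛ : 1 ≤ Cm * D₁ ^ 20 := one_le_mul_of_one_le_of_one_le hCm (one_le_pow₀ hD₁)
  have hC5 : 0 < 2 * Cm + Cf * Cm := by nlinarith
  obtain ⟨s1, s2⟩ := hSHF ρ D (Cm * D₁ ^ 20) lam (Cm * D₁ ^ 236 * ρ ^ 2 / K)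
    (Cm * D₁ ^ 236 / K) n (a + z₀) (z + z₀) p.2.2 (ea ρ p) hρ hD hΛ hn he hlam hd hL
    (by rw [Sg_shift]; exact q1) (by rw [gr_shift]; exact q2)
  refine ⟨?_, ?_, ?_⟩
  · have h1 := norm_le_Lo hLOB (ea ρ p) ρ (z + z₀ - p.2.2) he hρ
    have h2 : ‖z + z₀ - p.2.2‖ ≤ 16 * ρ ^ 2 * D :=
      h1.trans (mul_le_mul_of_nonneg_left hL (by positivity))
    have h3 : p.2.2 - z₀ = z - (z + z₀ - p.2.2) := by abel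
    rw [h3]
    have h4 : ρ ^ 2 ≤ D * ρ ^ 2 := by nlinarith
    calc ‖z - (z + z₀ - p.2.2)‖ ≤ ‖z‖ + ‖z + z₀ - p.2.2‖ := norm_sub_le _ _
      _ ≤ ρ ^ 2 + 16 * ρ ^ 2 * D := add_le_add hz1 h2
      _ ≤ 100 * D * ρ ^ 2 := by nlinarith
  · exact T_bound hC5 hD hDD (by linarith) hρ2.le (S_bound hCm hCf hD hDD hK hKρ s1)
  · exact T_bound hC5 hD hDD (by linarith) zero_le_one (Q_bound hCm hCf hD hDD hK hKρ s2)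

/-! ### Powers of `R` -/

theorem rpow_pow_le {R δ : ℝ} (hR : 1 ≤ R) (hδ : 0 < δ) :
    1 ≤ R ^ (δ / 2000) ∧ (R ^ (δ / 2000)) ^ 510 ≤ R ^ δ := by
  have h0 : 0 ≤ R := by linarith
  refine ⟨Real.one_le_rpow hR (by positivity), ?_⟩
  rw [← Real.rpow_natCast (R ^ (δ / 2000)) 510, ← Real.rpow_mul h0]
  apply Real.rpow_le_rpow_of_exponent_le hR
  push_cast
  linarith

/-- the bound of `K₁` when it is not large -/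
theorem small_case {C₂ C₃ K₁ x D : ℝ} (hC₂ : 1 ≤ C₂) (hC₃ : 1 ≤ C₃) (hx : 1 ≤ x) (hD : 1 ≤ D)
    (h : K₁ < C₃ * (C₂ * x * D ^ 6) ^ 240) : K₁ ≤ C₃ * C₂ ^ 240 * x ^ 510 * D ^ 3060 := by
  calc K₁ ≤ C₃ * (C₂ * x * D ^ 6) ^ 240 := h.le
    _ = C₃ * C₂ ^ 240 * x ^ 240 * D ^ 1440 := by
      rw [mul_pow, mul_pow, ← pow_mul]
      ring
    _ ≤ C₃ * C₂ ^ 240 * x ^ 510 * D ^ 3060 := by
      gcongr
      · norm_num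
      · norm_num

/-- the bound of `K₁` from the bound of the square root -/
theorem large_case {C₂ C₅ Cm Cs Cc K₁ x D S : ℝ} (hC₂ : 1 ≤ C₂) (hC₅ : 0 < C₅)
    (hCc : 1 ≤ Cc) (hx : 1 ≤ x) (hD : 1 ≤ D) (hS0 : 0 ≤ S)
    (hS : S ≤ Cm * Cs * (C₂ * x * D ^ 6) ^ 134 * x * D ^ 6)
    (hK : K₁ = Cc * (C₅ * (C₂ * x * D ^ 6) ^ 240 * S ^ 2)) :
    K₁ ≤ Cc * C₅ * (Cm * Cs) ^ 2 * C₂ ^ 508 * x ^ 510 * D ^ 3060 := by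
  have h1 : S ^ 2 ≤ (Cm * Cs * (C₂ * x * D ^ 6) ^ 134 * x * D ^ 6) ^ 2 :=
    pow_le_pow_left₀ hS0 hS 2
  have h2 : (Cm * Cs * (C₂ * x * D ^ 6) ^ 134 * x * D ^ 6) ^ 2 =
      (Cm * Cs) ^ 2 * (C₂ * x * D ^ 6) ^ 268 * x ^ 2 * D ^ 12 := by
    rw [mul_pow, mul_pow, mul_pow, ← pow_mul, ← pow_mul]
  have h3 : (C₂ * x * D ^ 6) ^ 240 * (C₂ * x * D ^ 6) ^ 268 =
      C₂ ^ 508 * x ^ 508 * D ^ 3048 := by
    rw [← pow_add, mul_pow, mul_pow, ← pow_mul]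
  rw [h2] at h1
  rw [hK]
  calc Cc * (C₅ * (C₂ * x * D ^ 6) ^ 240 * S ^ 2) ≤
      Cc * (C₅ * (C₂ * x * D ^ 6) ^ 240 *
        ((Cm * Cs) ^ 2 * (C₂ * x * D ^ 6) ^ 268 * x ^ 2 * D ^ 12)) := by gcongr
    _ = Cc * C₅ * (Cm * Cs) ^ 2 * ((C₂ * x * D ^ 6) ^ 240 * (C₂ * x * D ^ 6) ^ 268) * x ^ 2 *
        D ^ 12 := by ring
    _ = Cc * C₅ * (Cm * Cs) ^ 2 * C₂ ^ 508 * (x ^ 508 * x ^ 2) * (D ^ 3048 * D ^ 12) := by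
      rw [h3]
      ring
    _ = Cc * C₅ * (Cm * Cs) ^ 2 * C₂ ^ 508 * x ^ 510 * D ^ 3060 := by
      rw [← pow_add, ← pow_add]

/-! ### The row -/

/-- Row OB. -/
theorem pf_OB (hMAI : T_MAI) (hH6 : T_H6) (hSPH : T_SPH) (hCNF : T_CNF) (hSHF : T_SHF)
    (hLOB : Pool.Agent.H83.G.T_LOB) : T_OB := by
  obtain ⟨Cm, hCm, hMAI⟩ := hMAI
  obtain ⟨Cc, hCc, hCNF⟩ := hCNF
  obtain ⟨Cf, hCf, hSHF⟩ := hSHF
  refine ⟨3060, ?_⟩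
  intro κ δ β a Xc χ hκ ha hXc hβ hδ
  obtain ⟨C₆, hC₆, h6⟩ := hH6 κ (δ / 2000) β a Xc χ hκ ha hXc hβ (by positivity)
  obtain ⟨Cs, hCs, hS⟩ := hSPH κ (δ / 2000) β a Xc χ hκ ha hXc hβ (by positivity)
  obtain ⟨C₅, hC₅⟩ : ∃ C₅, C₅ = 200 * (2 * Cm + Cf * Cm) := ⟨_, rfl⟩
  obtain ⟨C₂, hC₂⟩ : ∃ C₂, C₂ = C₆ + Cc := ⟨_, rfl⟩
  have hC₅1 : Cm ≤ C₅ := by nlinarith
  have hC₅2 : 1 ≤ C₅ := hCm.trans hC₅1
  have hC₂1 : 1 ≤ C₂ := by linarith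
  have hC₃1 : 1 ≤ Cc * C₅ := one_le_mul_of_one_le_of_one_le hCc hC₅2
  have hc1 : 0 ≤ Cc * C₅ * C₂ ^ 240 := by positivity
  have hc2 : 0 ≤ Cc * C₅ * (Cm * Cs) ^ 2 * C₂ ^ 508 := by positivity
  refine ⟨C₆ + Cs + Cc * C₅ * C₂ ^ 240 + Cc * C₅ * (Cm * Cs) ^ 2 * C₂ ^ 508, by linarith, ?_⟩
  intro R A D D₂ ρ K₁ h f X P I hR hf hA hD hD₂ hK₁ hKρ hDR hh hAR hXt hFam hEnd
  have hR6 : C₆ ≤ R := by linarith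
  have hRs : Cs ≤ R := by linarith
  have hR1 : 1 ≤ R := hC₆.trans hR6
  have hR0 : 0 ≤ R := by linarith
  have hρ1 : 1 ≤ ρ := hK₁.trans hKρ
  have hρ0 : 0 < ρ := by linarith
  obtain ⟨hx1, hx2⟩ := rpow_pow_le hR1 hδ
  obtain ⟨x, hx⟩ : ∃ x, x = R ^ (δ / 2000) := ⟨_, rfl⟩
  rw [← hx] at hx1 hx2
  have hfin : ∀ c : ℝ, 0 ≤ c → c ≤ C₆ + Cs + Cc * C₅ * C₂ ^ 240 +
      Cc * C₅ * (Cm * Cs) ^ 2 * C₂ ^ 508 → K₁ ≤ c * x ^ 510 * D₂ ^ 3060 →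
      K₁ ≤ (C₆ + Cs + Cc * C₅ * C₂ ^ 240 + Cc * C₅ * (Cm * Cs) ^ 2 * C₂ ^ 508) * R ^ δ *
        D₂ ^ 3060 := by
    intro c hc hcC hc'
    exact hc'.trans (mul_le_mul_of_nonneg_right
      (mul_le_mul hcC hx2 (by positivity) (hc.trans hcC)) (by positivity))
  have hD21 : 1 ≤ D₂ := hD.trans hD₂
  by_cases hlarge : K₁ < Cc * C₅ * (C₂ * x * D₂ ^ 6) ^ 240
  · exact hfin _ hc1 (by linarith) (small_case hC₂1 hC₃1 hx1 hD21 hlarge)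
  push Not at hlarge
  obtain ⟨D₁, hD₁⟩ : ∃ D₁, D₁ = C₂ * x * D₂ ^ 6 := ⟨_, rfl⟩
  rw [← hD₁] at hlarge
  have hD6 : D₂ ≤ D₂ ^ 6 := by
    calc D₂ = D₂ ^ 1 := (pow_one D₂).symm
      _ ≤ D₂ ^ 6 := pow_le_pow_right₀ hD21 (by norm_num)
  have hD61 : 1 ≤ D₂ ^ 6 := one_le_pow₀ hD21
  have hD4 : D ^ 4 ≤ D₂ ^ 4 := pow_le_pow_left₀ (by linarith) hD₂ 4
  have hCx : 1 ≤ C₂ * x := one_le_mul_of_one_le_of_one_le hC₂1 hx1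
  have hDD2 : D₂ ≤ D₁ := by
    rw [hD₁]
    nlinarith
  have hDD : D ≤ D₁ := hD₂.trans hDD2
  have hD₁1 : 1 ≤ D₁ := hD.trans hDD
  have hD₁240 : D₁ ≤ D₁ ^ 240 := by
    calc D₁ = D₁ ^ 1 := (pow_one D₁).symm
      _ ≤ D₁ ^ 240 := pow_le_pow_right₀ hD₁1 (by norm_num)
  have hAh : A ≤ Real.sqrt R * h := by
    have h1 : ρ ≤ Real.sqrt R := by
      apply Real.le_sqrt_of_sq_le
      nlinarith
    have h2 : D₂ ≤ ρ := by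
      have h3 : D₁ ≤ Cc * C₅ * D₁ ^ 240 := by
        calc D₁ ≤ D₁ ^ 240 := hD₁240
          _ ≤ Cc * C₅ * D₁ ^ 240 := le_mul_of_one_le_left (by positivity) hC₃1
      linarith
    have h3 : D₂ * ρ ^ 2 ≤ Real.sqrt R * R := by
      apply mul_le_mul (h2.trans h1) _ (by positivity) (Real.sqrt_nonneg R)
      nlinarith
    have h4 : A * R ≤ Real.sqrt R * h * R := by
      calc A * R ≤ D₂ * ρ ^ 2 * h := hAR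
        _ ≤ Real.sqrt R * R * h := mul_le_mul_of_nonneg_right h3 hh.le
        _ = Real.sqrt R * h * R := by ring
    exact le_of_mul_le_mul_right h4 (by linarith)
  have htz : ∀ z₀ : Z 2, (∃ z ∈ X, ‖z - z₀‖ ≤ ρ ^ 2) → |tz z₀| ≤ 3 * R := by
    rintro z₀ ⟨z, hz, hzz⟩
    have h1 := abs_tz_le z z₀
    have h2 := hXt z hz
    have h3 : ρ ^ 2 ≤ D * ρ ^ 2 := by nlinarith
    have h4 : 2 * ρ ^ 2 ≤ R := by nlinarith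
    linarith
  -- the number of packets in a ball
  have hcount : ∀ z₀ : Z 2, (∃ z ∈ X, ‖z - z₀‖ ≤ ρ ^ 2) → ∀ Q ⊆ P,
      (∀ p ∈ Q, ‖p.2.2 - z₀‖ ≤ 100 * D * ρ ^ 2) → (Q.card : ℝ) ≤ C₆ * x * D₂ ^ 6 * ρ ^ 4 := by
    intro z₀ hz₀ Q hQ hQz
    have h1 := h6 R A D ρ K₁ h z₀ f Q hR6 hf hA hD hρ1 hDR hK₁ (htz z₀ hz₀) hh hAh
      (fam_sub hFam hQ) hQz
    rw [← hx] at h1
    refine card_bound (D := D₂) (by linarith) (by linarith) hA hR0 hh hAR (h1.trans ?_)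
    gcongr
  have hCD : Cc * D ^ 6 ≤ D₁ := by
    rw [hD₁]
    have h1 : D ^ 6 ≤ D₂ ^ 6 := pow_le_pow_left₀ (by linarith) hD₂ 6
    apply mul_le_mul _ h1 (by positivity) (by positivity)
    nlinarith
  have hB : C₆ * x * D₂ ^ 6 ≤ D₁ := by
    rw [hD₁]
    apply mul_le_mul_of_nonneg_right _ (by positivity)
    apply mul_le_mul_of_nonneg_right _ (by linarith)
    linarith
  have hCK : Cc * D₁ ≤ K₁ := by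
    calc Cc * D₁ ≤ Cc * C₅ * D₁ ^ 240 := by
          apply mul_le_mul _ hD₁240 (by linarith) (by linarith)
          nlinarith
      _ ≤ K₁ := hlarge
  obtain ⟨z₀, X', P', I', hne, hP', hz₀, hX', hex, hConf⟩ := hCNF β (Gf Xc R a f) h D D₁ ρ K₁
    (C₆ * x * D₂ ^ 6) X P I hD hK₁ hKρ hFam hEnd hcount hCD hB hCK
  obtain ⟨K, hK⟩ : ∃ K, K = K₁ / Cc := ⟨_, rfl⟩
  rw [← hK] at hConf
  have hCc0 : 0 < Cc := by linarith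
  have hKc : K₁ = Cc * K := by
    rw [hK]
    field_simp
  have hK5 : C₅ * D₁ ^ 240 ≤ K := by
    rw [hK, le_div_iff₀ hCc0]
    calc C₅ * D₁ ^ 240 * Cc = Cc * C₅ * D₁ ^ 240 := by ring
      _ ≤ K₁ := hlarge
  have hKm : Cm * D₁ ^ 240 ≤ K :=
    (mul_le_mul_of_nonneg_right hC₅1 (by positivity)).trans hK5
  obtain ⟨a₀, ha₀, n, lam, Ps, hPs, hn, hlam, hNs, hq⟩ := hMAI Tp ρ D₁ K X' P' (ea ρ) I' hConf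
    hne hKm
  have hK1 : 1 ≤ K := hD₁1.trans hConf.D_le_K
  have hK0 : 0 < K := by linarith
  have hKρ' : K ≤ ρ := hConf.K_le
  have hnear := near_quadric hLOB hρ1 hD hDD hK1 hKρ' hCm hCf hSHF hFam.eta hEnd.rel hConf.ball
    hP' hPs hX' hex ha₀ hn hlam hq
  rw [← hC₅] at hnear
  obtain ⟨K₂, hK₂⟩ : ∃ K₂, K₂ = K / (C₅ * D₁ ^ 240) := ⟨_, rfl⟩
  rw [← hK₂] at hnear
  have hCD0 : 0 < C₅ * D₁ ^ 240 := by positivity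
  have hCD1 : 1 ≤ C₅ * D₁ ^ 240 :=
    one_le_mul_of_one_le_of_one_le hC₅2 (one_le_pow₀ hD₁1)
  have hK₂1 : 1 ≤ K₂ := by
    rw [hK₂, one_le_div hCD0]
    exact hK5
  have hK₂ρ : K₂ ≤ ρ := by
    rw [hK₂]
    exact (div_le_self hK0.le hCD1).trans hKρ'
  have hza : ‖z₀ - (a₀ + z₀)‖ ≤ 2 * ρ ^ 2 := by
    have h1 : z₀ - (a₀ + z₀) = -a₀ := by abel
    rw [h1, norm_neg]
    have h2 := hConf.ball a₀ ha₀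
    have h3 : 0 < ρ ^ 2 := by positivity
    linarith
  have hsph := hS R A D ρ K₂ K₁ h lam n (a₀ + z₀) z₀ f Ps hRs hf hA hD hρ1 hDR hK₂1 hK₂ρ hK₁
    (htz z₀ hz₀) hh hAh (fam_sub hFam (hPs.trans hP')) hn hza hnear
  rw [← hx] at hsph
  have hsph2 : (Ps.card : ℝ) * h ^ 2 ≤ Cs * x * D₂ ^ 4 * (A ^ 2 * R ^ 2 / Real.sqrt K₂) := by
    refine hsph.trans ?_
    gcongr
  have hsq := sqrt_bound (by linarith) (by linarith) (by linarith) (by linarith) hρ0 hA hR0 hh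
    (Real.sqrt_pos.2 (by linarith)) hAR hNs hsph2
  have hKS : K₁ = Cc * (C₅ * D₁ ^ 240 * Real.sqrt K₂ ^ 2) := by
    rw [Real.sq_sqrt (by linarith), hK₂, hKc]
    field_simp
  rw [hD₁] at hsq hKS
  exact hfin _ hc2 (by linarith) (large_case hC₂1 (by linarith) hCc hx1 hD21
    (Real.sqrt_nonneg K₂) hsq hKS)

end Pool.Agent.H75.D3N.OB
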